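import Pool.Agent.W312.WT.Stm

/-!
# Omitting jobs does not increase the cost
-/

set_option autoImplicit false

namespace Pool.Agent.W348.WT

open Pool.Agent.W312.WT

theorem cz_nil (ts : List ℕ) : cz [] ts = 0 := by simp [cz]

theorem cz_cc (x : Jb) (l : List Jb) (t : ℕ) (ts : List ℕ) :
    cz (x :: l) (t :: ts) = tc x t + cz l ts := by simp [cz]

theorem tc_mono (x : Jb) {s t : ℕ} (h : s ≤ t) : tc x s ≤ tc x t := by
  unfold tc
  exact Nat.mul_le_mul_left _ (Nat.sub_le_sub_right h _)

theorem shift (l : List Jb) : ∀ (t : ℕ) (ts : List ℕ), (t :: ts).Pairwise (· ≤ ·) →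
    l.length ≤ ts.length → cz l (t :: ts) ≤ cz l ts := by
  induction l with
  | nil => intro t ts _ _; rw [cz_nil, cz_nil]
  | cons x l ih =>
    intro t ts hs hl
    cases ts with
    | nil => simp at hl
    | cons t' ts =>
      rw [cz_cc, cz_cc]
      have h1 : t ≤ t' := (List.pairwise_cons.1 hs).1 t' (by simp)
      have h2 : (t' :: ts).Pairwise (· ≤ ·) := (List.pairwise_cons.1 hs).2
      exact Nat.add_le_add (tc_mono x h1) (ih t' ts h2 (by simpa using hl))

theorem proof_SSub : Pool.Agent.W312.WT.SSub := by
  intro l₁ l₂ ts h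
  induction h generalizing ts with
  | slnil => intro _ _; exact le_rfl
  | @cons l₁ l₂ a hsub ih =>
    intro hl hs
    cases ts with
    | nil => simp at hl
    | cons t ts =>
      have hl' : l₂.length ≤ ts.length := by simpa using hl
      have h1 := shift l₁ t ts hs (hsub.length_le.trans hl')
      have h2 := ih ts hl' (List.pairwise_cons.1 hs).2
      rw [cz_cc]
      omega
  | @cons_cons l₁ l₂ a hsub ih =>
    intro hl hs
    cases ts with
    | nil => simp at hl
    | cons t ts =>
      have hl' : l₂.length ≤ ts.length := by simpa using hl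
      have h2 := ih ts hl' (List.pairwise_cons.1 hs).2
      rw [cz_cc, cz_cc]
      omega

end Pool.Agent.W348.WT
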